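import Pool.Agent.W21.RV.Defs
import Pool.Agent.H442R2.BX.Rc
import Pool.Agent.H442R2.BX.Pb

/-!
RV project (helper21), tasks RC and PB: the number of rough divisors and the pointwise bound, for
`|m| ≤ N² B`.
-/

set_option autoImplicit false

namespace Pool.Agent.W483.RV

open Finset
open Pool.Agent.H442R2
open Pool.Agent.H442R2.KF
open Pool.Agent.W21.RV

open BX.TaskRC in
theorem RC : St_RC := by
  intro ε hε
  refine ⟨⌈Real.exp (4 / ε)⌉₊, Real.exp (2 / ε), Real.exp_pos _, ?_⟩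
  intro N X hN m B hm hB1 hmB'
  have hN1 : Real.exp (4 / ε) ≤ (N : ℝ) := Nat.ceil_le.mp hN
  have hN0 : (0 : ℝ) < (N : ℝ) := lt_of_lt_of_le (Real.exp_pos _) hN1
  have hlog : 4 / ε ≤ Real.log N := by
    rw [Real.le_log_iff_exp_le hN0]; exact hN1
  have hlog0 : 0 < Real.log N := lt_of_lt_of_le (by positivity) hlog
  have hεlog : 4 ≤ ε * Real.log N := by
    rw [div_le_iff₀ hε] at hlog
    linarith
  have hN1' : (1 : ℝ) ≤ (N : ℝ) := by
    have : Real.exp 0 ≤ Real.exp (4 / ε) := Real.exp_le_exp.mpr (by positivity)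
    rw [Real.exp_zero] at this
    linarith
  set y : ℝ := (N : ℝ) ^ ε with hy
  have hy1 : 1 ≤ y := Real.one_le_rpow hN1' hε.le
  obtain ⟨k, hk1, hk2⟩ := rr_card y hy1 m.natAbs (Int.natAbs_pos.mpr hm)
  have hB0 : 0 < B := by linarith
  have hmB : ((m.natAbs : ℕ) : ℝ) ≤ (N : ℝ) ^ 2 * B := by
    have h1 : ((m.natAbs : ℕ) : ℝ) = |(m : ℝ)| := by
      rw [Nat.cast_natAbs]
      push_cast
      rfl
    rw [h1]
    exact hmB'
  have hk3 : (k : ℝ) * (ε * Real.log N) ≤ 2 * Real.log N + Real.log B := by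
    have h1 : Real.log (y ^ k) ≤ Real.log ((N : ℝ) ^ 2 * B) :=
      Real.log_le_log (by positivity) (hk1.trans hmB)
    rw [Real.log_pow, hy, Real.log_rpow hN0, Real.log_mul (by positivity) (by positivity),
      Real.log_pow] at h1
    push_cast at h1
    exact h1
  have hlB : 0 ≤ Real.log B := Real.log_nonneg hB1
  have hk4 : (k : ℝ) ≤ 2 / ε + Real.log B * (1 / 4) := by
    have hpos : 0 < ε * Real.log N := by positivity
    have h1 : (k : ℝ) ≤ (2 * Real.log N + Real.log B) / (ε * Real.log N) :=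
      (le_div_iff₀ hpos).mpr hk3
    have h2 : (2 * Real.log N + Real.log B) / (ε * Real.log N) =
        2 / ε + Real.log B / (ε * Real.log N) := by
      field_simp
    have h3 : Real.log B / (ε * Real.log N) ≤ Real.log B * (1 / 4) := by
      rw [div_eq_mul_one_div]
      refine mul_le_mul_of_nonneg_left ?_ hlB
      exact one_div_le_one_div_of_le (by norm_num) hεlog
    rw [h2] at h1
    linarith
  have hcard : ((BX.rd y X m).card : ℝ) ≤ (2 : ℝ) ^ k := by
    have h1 := (card_le_card (rd_sub y X m hm)).trans hk2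
    exact_mod_cast h1
  have h2k : (2 : ℝ) ^ k ≤ Real.exp k := by
    have h1 : (2 : ℝ) ≤ Real.exp 1 := by
      have := Real.add_one_le_exp (1 : ℝ)
      linarith
    calc (2 : ℝ) ^ k ≤ (Real.exp 1) ^ k := pow_le_pow_left₀ (by norm_num) h1 k
      _ = Real.exp k := by rw [← Real.exp_nat_mul, mul_one]
  calc ((BX.rd y X m).card : ℝ) ≤ Real.exp k := hcard.trans h2k
    _ ≤ Real.exp (2 / ε + Real.log B * (1 / 4)) := Real.exp_le_exp.mpr hk4
    _ = Real.exp (2 / ε) * B ^ (1 / 4 : ℝ) := by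
        rw [Real.exp_add, Real.rpow_def_of_pos (by positivity)]

open BX.TaskPB in
theorem PB (hRC : St_RC) (hRA : BX.St_RA) : St_PB := by
  intro ε hε
  obtain ⟨N₀, C1, hC1, h1⟩ := hRC ε hε
  obtain ⟨C2, hC2, h2⟩ := hRA ε hε
  refine ⟨max N₀ 2, C1 + C2, by positivity, fun N X hN hX c hc a n B hB1 hB => ?_⟩
  have hb : (1 : ℝ) ≤ B ^ (1 / 4 : ℝ) := Real.one_le_rpow hB1 (by norm_num)
  unfold BX.rf
  split_ifs with hna
  · rw [abs_zero]
    positivity
  · have h3 := abs_Rf_le _ X c hc a n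
    have h4 := h1 N X ((le_max_left _ _).trans hN) (n - a) B (sub_ne_zero.mpr hna) hB1 hB
    have h5 : ∑ d ∈ BX.roughs ((N : ℝ) ^ ε) X, 1 / (d : ℝ) ≤ C2 :=
      (sum_le_sum_of_subset_of_nonneg (roughs_mono _ hX) fun _ _ _ => by positivity).trans
        (h2 N ((le_max_right _ _).trans hN))
    nlinarith

end Pool.Agent.W483.RV
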